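import Pool.Agent.Q210.GR.Irc

set_option autoImplicit false
set_option linter.all false

open scoped Classical
open Finset Polynomial

namespace Pool.Agent.Q210.GR

open Pool.Agent.Q269.GR Pool.Agent.H341R2.Sharp
open Pool.Agent.Y164.PS (L sg lam_mem sg_L sg_add lam_mul_left lam_eq_zero_iff coprime_of_not_dvd sg_zero sg_one)

variable {k : Type} [Field k] [Fintype k]

theorem proper_le {d : ℕ} (hd : 0 < d) :
    ∑ e ∈ d.properDivisors, e * (Irn k e).card ≤ 2 * Fintype.card k ^ (d / 2) := by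
  have hq1 : 1 < Fintype.card k := Fintype.one_lt_card
  refine le_trans (sum_le_sum fun e he => ?_) (le_trans (sum_le_sum_of_subset (?_ : _ ⊆ Icc 1 (d / 2)))
    (geo hq1 _))
  · exact irn_one_le (Nat.pos_of_mem_properDivisors he)
  · intro e he
    obtain ⟨h1, h2⟩ := Nat.mem_properDivisors.1 he
    obtain ⟨c, rfl⟩ := h1
    have he0 : 0 < e := Nat.pos_of_mem_properDivisors he
    rw [mem_Icc]
    refine ⟨he0, ?_⟩
    rw [Nat.le_div_iff_mul_le (by norm_num)]
    refine Nat.mul_le_mul_left _ ?_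
    by_contra hc
    have : c ≤ 1 := by omega
    have := Nat.mul_le_mul_left e this
    omega

theorem T_split (M : k[X]) {d : ℕ} (hd : 0 < d) :
    T M d = ∑ e ∈ d.divisors, (e : ℤ) * ∑ P ∈ Irn k e, lam M P ^ (d / e) := by
  have h2 : (Irr k d).filter (fun P => P.natDegree ∣ d) = d.divisors.biUnion (fun e => Irn k e) := by
    ext P
    rw [mem_filter, mem_Irr, mem_biUnion]
    constructor
    · rintro ⟨⟨a, b, _⟩, c⟩
      exact ⟨_, Nat.mem_divisors.2 ⟨c, hd.ne'⟩, mem_Irn.2 ⟨a, rfl, b⟩⟩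
    · rintro ⟨e, he, h⟩
      obtain ⟨a, b, c⟩ := mem_Irn.1 h
      have := Nat.dvd_of_mem_divisors he
      exact ⟨⟨a, c, b ▸ Nat.le_of_dvd hd this⟩, b ▸ this⟩
  unfold T
  rw [h2, sum_biUnion]
  · refine sum_congr rfl fun e _ => ?_
    rw [mul_sum]
    refine sum_congr rfl fun P hP => ?_
    rw [(mem_Irn.1 hP).2.1]
  · intro a _ b _ hab
    rw [Function.onFun, Finset.disjoint_left]
    intro P hP hP'
    exact hab ((mem_Irn.1 hP).2.1.symm.trans (mem_Irn.1 hP').2.1)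

theorem lam_abs (f g : k[X]) : |(lam f g : ℝ)| ≤ 1 := by
  rcases lam_mem f g with h | h | h <;> rw [h] <;> simp

theorem lam_C {c : k} (g : k[X]) : lam (C c) g = quadraticChar k c ^ g.natDegree := by
  unfold lam
  rw [natDegree_C, resultant_zero_right_deg, map_pow]
  simp

theorem T_scale (hk : ringChar k ≠ 2) {a : k} (ha : a ≠ 0) {f : k[X]} (hf : f ≠ 0) {d : ℕ} (hd : 0 < d) :
    |(T (C a * f) d : ℝ)| = |(T f d : ℝ)| := by
  have h1 : T (C a * f) d = quadraticChar k a ^ d * T f d := by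
    unfold T
    rw [mul_sum]
    refine sum_congr rfl fun P hP => ?_
    rw [mem_filter] at hP
    rw [lam_mul_left (by simpa using ha) hf, lam_C, mul_pow, ← pow_mul, Nat.mul_div_cancel' hP.2]
    ring
  rw [h1]
  push_cast
  rw [abs_mul, abs_pow]
  rcases quadraticChar_dichotomy ha with h | h <;> rw [h] <;> simp

theorem T_bd (hk : ringChar k ≠ 2) {M : k[X]} (hM : ∀ (c : k) (h : k[X]), M ≠ C c * h ^ 2) {d : ℕ}
    (hd : 0 < d) : |(T M d : ℝ)| ≤ 5 * M.natDegree * (Real.sqrt (Fintype.card k)) ^ d := by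
  have hM0 : M ≠ 0 := by
    have := hM 0 1
    simpa using this
  have ha : M.leadingCoeff ≠ 0 := leadingCoeff_ne_zero.2 hM0
  set a := M.leadingCoeff with haa
  set f := C a⁻¹ * M with hf
  have hfM : M = C a * f := by
    rw [hf, ← mul_assoc, ← C_mul, mul_inv_cancel₀ ha, C_1, one_mul]
  have hmon : f.Monic := by
    rw [hf, Monic, leadingCoeff_mul, leadingCoeff_C, ← haa, inv_mul_cancel₀ ha]
  have hdeg : f.natDegree = M.natDegree := by
    rw [hf, natDegree_C_mul (inv_ne_zero ha)]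
  have hns : ∀ (c : k) (h : k[X]), f ≠ C c * h ^ 2 := by
    intro c h e
    refine hM (a * c) h ?_
    rw [hfM, e, C_mul]
    ring
  have h1 : 1 ≤ f.natDegree := by
    by_contra hc
    have h0 : f.natDegree = 0 := by omega
    have : f = 1 := eq_one_of_monic_natDegree_zero hmon h0
    exact hns 1 1 (by rw [this]; simp)
  have h2 := (T_bound hk hmon h1 hns d hd).1
  rw [hfM, T_scale hk ha hmon.ne_zero hd, ← hfM, ← hdeg]
  exact h2

/-- prime sums of the symbol -/
theorem prime_sum (hk : ringChar k ≠ 2) {M : k[X]} (hM : ∀ (c : k) (h : k[X]), M ≠ C c * h ^ 2) {d : ℕ}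
    (hd : 0 < d) : (d : ℝ) * |∑ P ∈ Irn k d, (lam M P : ℝ)| ≤
      (5 * M.natDegree + 2) * (Real.sqrt (Fintype.card k)) ^ d := by
  have h1 := T_bd hk hM hd
  have h2 := T_split M hd
  rw [← Nat.insert_self_properDivisors hd.ne', sum_insert (by simp), Nat.div_self hd] at h2
  have h3 : ((T M d : ℤ) : ℝ) = d * ∑ P ∈ Irn k d, (lam M P : ℝ) +
      ∑ e ∈ d.properDivisors, (e : ℝ) * ∑ P ∈ Irn k e, (lam M P : ℝ) ^ (d / e) := by
    rw [h2]
    push_cast
    simp
  have h4 : |∑ e ∈ d.properDivisors, (e : ℝ) * ∑ P ∈ Irn k e, (lam M P : ℝ) ^ (d / e)| ≤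
      2 * (Real.sqrt (Fintype.card k)) ^ d := by
    have h5 : |∑ e ∈ d.properDivisors, (e : ℝ) * ∑ P ∈ Irn k e, (lam M P : ℝ) ^ (d / e)| ≤
        ∑ e ∈ d.properDivisors, (e : ℝ) * (Irn k e).card := by
      refine (abs_sum_le_sum_abs _ _).trans (sum_le_sum fun e _ => ?_)
      rw [abs_mul, abs_of_nonneg (by positivity : (0 : ℝ) ≤ e)]
      refine mul_le_mul_of_nonneg_left ?_ (by positivity)
      refine (abs_sum_le_sum_abs _ _).trans ?_
      calc ∑ P ∈ Irn k e, |(lam M P : ℝ) ^ (d / e)| ≤ ∑ P ∈ Irn k e, (1 : ℝ) := by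
            refine sum_le_sum fun P _ => ?_
            rw [abs_pow]
            exact pow_le_one₀ (abs_nonneg _) (lam_abs _ _)
        _ = _ := by simp
    refine h5.trans ?_
    have h6 : ∑ e ∈ d.properDivisors, (e : ℝ) * (Irn k e).card ≤ 2 * (Fintype.card k : ℝ) ^ (d / 2) := by
      exact_mod_cast proper_le (k := k) hd
    refine h6.trans (mul_le_mul_of_nonneg_left ?_ (by norm_num))
    have hq1 : (1 : ℝ) ≤ Fintype.card k := by exact_mod_cast Fintype.one_lt_card.le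
    have hs : 1 ≤ Real.sqrt (Fintype.card k) := by
      rw [Real.one_le_sqrt]
      exact hq1
    calc (Fintype.card k : ℝ) ^ (d / 2) = Real.sqrt (Fintype.card k) ^ (2 * (d / 2)) := by
          rw [pow_mul, Real.sq_sqrt (by linarith)]
      _ ≤ _ := pow_le_pow_right₀ hs (Nat.mul_div_le d 2)
  have h7 : (d : ℝ) * |∑ P ∈ Irn k d, (lam M P : ℝ)| = |(d : ℝ) * ∑ P ∈ Irn k d, (lam M P : ℝ)| := by
    rw [abs_mul, abs_of_nonneg (by positivity : (0 : ℝ) ≤ d)]
  have h8 : (d : ℝ) * ∑ P ∈ Irn k d, (lam M P : ℝ) = T M d -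
      ∑ e ∈ d.properDivisors, (e : ℝ) * ∑ P ∈ Irn k e, (lam M P : ℝ) ^ (d / e) := by
    rw [h3]; ring
  rw [h7, h8]
  refine (abs_sub _ _).trans ?_
  calc _ ≤ 5 * M.natDegree * (Real.sqrt (Fintype.card k)) ^ d + 2 * (Real.sqrt (Fintype.card k)) ^ d :=
        add_le_add h1 h4
    _ = _ := by ring

theorem two_vals (x : ZMod 2) : x = 0 ∨ x = 1 := by
  revert x; decide

/-- the indicator of a type -/
theorem indic (u v s t : ZMod 2) :
    (if (u, v) = (s, t) then (1 : ℝ) else 0) =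
      (1 + sg s * sg u + sg t * sg v + sg (s + t) * sg (u + v)) / 4 := by
  have h2 : (1 : ZMod 2) + 1 = 0 := by decide
  have h01 : (0 : ZMod 2) ≠ 1 := by decide
  have h10 : (1 : ZMod 2) ≠ 0 := by decide
  rcases two_vals u with rfl | rfl <;> rcases two_vals v with rfl | rfl <;>
    rcases two_vals s with rfl | rfl <;> rcases two_vals t with rfl | rfl <;>
    simp [sg_zero, sg_one, h2, h01, h10] <;> norm_num

theorem t_GEN : S_GEN := by
  intro k _ _ hk hm a b h1 h2 h3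
  set q := Fintype.card k with hq
  set s := Real.sqrt (q : ℝ) with hs
  have hq1 : 1 < q := Fintype.one_lt_card
  have hq0 : (0 : ℝ) ≤ q := by positivity
  have hs1 : 1 < s := by
    rw [hs]
    exact Real.lt_sqrt_of_sq_lt (by rw [one_pow]; exact_mod_cast hq1)
  set D : ℕ := (a * (a - b)).natDegree + (a * b).natDegree + (b * (a - b)).natDegree with hD
  obtain ⟨n, hn⟩ := pow_unbounded_of_one_lt (9 * (5 * (D : ℝ) + 2) + 2) hs1
  have hab0 : a * b ≠ 0 := by have := h1 0 1; simpa using this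
  have ha0 : a ≠ 0 := left_ne_zero_of_mul hab0
  have hb0 : b ≠ 0 := right_ne_zero_of_mul hab0
  have hc0 : a - b ≠ 0 := by
    have := h2 0 1
    have h : a * (a - b) ≠ 0 := by simpa using this
    exact right_ne_zero_of_mul h
  set Δ := a * b * (a - b) with hΔ
  have hΔ0 : Δ ≠ 0 := mul_ne_zero hab0 hc0
  refine ⟨n + Δ.natDegree + 1, fun d hd p r hpr => ?_⟩
  have hd0 : 0 < d := by omega
  set N : ℝ := ((Irn k d).card : ℝ) with hN
  have hcop : ∀ P ∈ Irn k d, IsCoprime a P ∧ IsCoprime b P ∧ IsCoprime (a - b) P := by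
    intro P hP
    obtain ⟨m1, m2, m3⟩ := mem_Irn.1 hP
    have hnd : ¬ P ∣ Δ := by
      intro h
      have := natDegree_le_of_dvd h hΔ0
      omega
    refine ⟨coprime_of_not_dvd m3 fun h => hnd ?_, coprime_of_not_dvd m3 fun h => hnd ?_,
      coprime_of_not_dvd m3 fun h => hnd ?_⟩
    · exact (h.mul_right b).mul_right (a - b)
    · exact (h.mul_left a).mul_right (a - b)
    · exact h.mul_left (a * b)
  have e1 : ∀ P ∈ Irn k d, sg (L (a * (a - b)) P) = lam (a * (a - b)) P := by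
    intro P hP
    obtain ⟨m1, m2, m3⟩ := mem_Irn.1 hP
    obtain ⟨c1, c2, c3⟩ := hcop P hP
    exact sg_L m3.ne_zero (c1.mul_left c3)
  have e2 : ∀ P ∈ Irn k d, sg (L (a * b) P) = lam (a * b) P := by
    intro P hP
    obtain ⟨m1, m2, m3⟩ := mem_Irn.1 hP
    obtain ⟨c1, c2, c3⟩ := hcop P hP
    exact sg_L m3.ne_zero (c1.mul_left c2)
  have e3 : ∀ P ∈ Irn k d, sg (L (a * (a - b)) P + L (a * b) P) = lam (b * (a - b)) P := by
    intro P hP
    obtain ⟨m1, m2, m3⟩ := mem_Irn.1 hP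
    obtain ⟨c1, c2, c3⟩ := hcop P hP
    rw [sg_add, e1 P hP, e2 P hP]
    have h4 : lam a P ≠ 0 := fun hh => (lam_eq_zero_iff m3.ne_zero).1 hh c1
    rw [lam_mul_left ha0 hc0, lam_mul_left ha0 hb0, lam_mul_left hb0 hc0]
    rcases lam_mem a P with h | h | h
    · exact absurd h h4
    · rw [h]; push_cast; ring
    · rw [h]; push_cast; ring
  set S1 := ∑ P ∈ Irn k d, (lam (a * (a - b)) P : ℝ) with hS1
  set S2 := ∑ P ∈ Irn k d, (lam (a * b) P : ℝ) with hS2
  set S3 := ∑ P ∈ Irn k d, (lam (b * (a - b)) P : ℝ) with hS3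
  have hcount : ∀ x y : ZMod 2,
      (((Irn k d).filter fun P => (L (a * (a - b)) P, L (a * b) P) = (x, y)).card : ℝ) =
      (N + sg x * S1 + sg y * S2 + sg (x + y) * S3) / 4 := by
    intro x y
    rw [card_filter]
    push_cast
    rw [sum_congr rfl fun P _ => indic (L (a * (a - b)) P) (L (a * b) P) x y, ← sum_div,
      sum_add_distrib, sum_add_distrib, sum_add_distrib, ← mul_sum, ← mul_sum, ← mul_sum,
      sum_congr rfl e1, sum_congr rfl e2, sum_congr rfl e3, sum_const, nsmul_eq_mul, mul_one]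
  have hall : (((Irn k d).filter fun P => (L (a * (a - b)) P, L (a * b) P) ≠ (0, 0) ∧
      (L (a * (a - b)) P, L (a * b) P) ≠ (p, r)).card : ℝ) = N -
      (N + sg 0 * S1 + sg 0 * S2 + sg (0 + 0) * S3) / 4 -
      (N + sg p * S1 + sg r * S2 + sg (p + r) * S3) / 4 := by
    rw [← hcount, ← hcount, hN, card_filter, card_filter, card_filter]
    push_cast
    have : ((Irn k d).card : ℝ) = ∑ P ∈ Irn k d, (1 : ℝ) := by simp
    rw [this, ← sum_sub_distrib, ← sum_sub_distrib]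
    refine sum_congr rfl fun P _ => ?_
    by_cases u1 : (L (a * (a - b)) P, L (a * b) P) = (0, 0)
    · have u2 : (L (a * (a - b)) P, L (a * b) P) ≠ (p, r) := fun h => hpr (h.symm.trans u1)
      rw [if_neg (fun h => h.1 u1), if_pos u1, if_neg u2]
      norm_num
    · by_cases u2 : (L (a * (a - b)) P, L (a * b) P) = (p, r)
      · rw [if_neg (fun h => h.2 u2), if_neg u1, if_pos u2]
        norm_num
      · rw [if_pos ⟨u1, u2⟩, if_neg u1, if_neg u2]
        norm_num
  rw [hall]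
  -- bounds
  set B := (5 * (D : ℝ) + 2) * s ^ d / d with hB
  have hdR : (0 : ℝ) < d := by exact_mod_cast hd0
  have hb : ∀ M : k[X], (∀ (c : k) (h : k[X]), M ≠ C c * h ^ 2) → M.natDegree ≤ D →
      |∑ P ∈ Irn k d, (lam M P : ℝ)| ≤ B := by
    intro M hM hMD
    have h5 := prime_sum hk hM hd0
    rw [hB, le_div_iff₀ hdR, mul_comm]
    refine h5.trans ?_
    have : (M.natDegree : ℝ) ≤ D := by exact_mod_cast hMD
    refine mul_le_mul_of_nonneg_right (by linarith) (by positivity)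
  have b1 : |S1| ≤ B := hb _ h2 (by omega)
  have b2 : |S2| ≤ B := hb _ h1 (by omega)
  have b3 : |S3| ≤ B := hb _ h3 (by omega)
  have hNB : 9 * B ≤ N := by
    have h6 : (q : ℝ) ^ d ≤ d * N + 2 * (q : ℝ) ^ (d / 2) := by
      rw [hN]
      exact_mod_cast irn_ge (k := k) hd0
    have hsq : s ^ 2 = q := Real.sq_sqrt hq0
    have h7 : (q : ℝ) ^ (d / 2) ≤ s ^ d := by
      rw [← hsq, ← pow_mul]
      exact pow_le_pow_right₀ hs1.le (Nat.mul_div_le d 2)
    have h8 : (q : ℝ) ^ d = s ^ d * s ^ d := by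
      rw [← hsq, ← pow_mul, ← pow_add]
      congr 1
      ring
    have h9 : 9 * (5 * (D : ℝ) + 2) + 2 ≤ s ^ d :=
      hn.le.trans (pow_le_pow_right₀ hs1.le (by omega))
    have h10 : 0 < s ^ d := by positivity
    have h11 : (9 * (5 * (D : ℝ) + 2) + 2) * s ^ d ≤ s ^ d * s ^ d :=
      mul_le_mul_of_nonneg_right h9 h10.le
    have h12 : 9 * B = (9 * (5 * (D : ℝ) + 2)) * s ^ d / d := by rw [hB]; ring
    rw [h12, div_le_iff₀ hdR]
    nlinarith
  have hsg : ∀ x : ZMod 2, ∀ y : ℝ, |y| ≤ B → sg x * y ≤ B ∧ -B ≤ sg x * y := by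
    intro x y hy
    obtain ⟨y1, y2⟩ := abs_le.1 hy
    rcases two_vals x with rfl | rfl
    · rw [sg_zero]; constructor <;> linarith
    · rw [sg_one]; constructor <;> linarith
  have c1 := (hsg 0 S1 b1).1
  have c2 := (hsg 0 S2 b2).1
  have c3 := (hsg (0 + 0) S3 b3).1
  have c4 := (hsg p S1 b1).1
  have c5 := (hsg r S2 b2).1
  have c6 := (hsg (p + r) S3 b3).1
  have key : ∀ X1 X2 X3 X4 X5 X6 : ℝ, X1 ≤ B → X2 ≤ B → X3 ≤ B → X4 ≤ B → X5 ≤ B → X6 ≤ B →
      (1 / 3 : ℝ) * N ≤ N - (N + X1 + X2 + X3) / 4 - (N + X4 + X5 + X6) / 4 := by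
    intro X1 X2 X3 X4 X5 X6 x1 x2 x3 x4 x5 x6
    linarith
  exact key _ _ _ _ _ _ c1 c2 c3 c4 c5 c6

end Pool.Agent.Q210.GR
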