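import Pool.Agent.Q269.GR.StD

set_option autoImplicit false
set_option linter.all false

open scoped Classical
open Finset Polynomial

namespace Pool.Agent.Q210.GR

open Pool.Agent.Q269.GR
open Pool.Agent.Y164.PS (L sg L_comm)

section re

variable {F : Type} [Field F] [Algebra F2 F]

theorem eqn_re {J J' : Type} [Fintype J] [Fintype J'] (e : J ≃ J') {M : J → J → F} {M' : J' → J' → F}
    {dd : J → F} {dd' : J' → F} {a c : J → F2} {a' c' : J' → F2} (hM : ∀ i j, i ≠ j → M' (e i) (e j) = M i j)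
    (hd : ∀ i, dd' (e i) = dd i) (ha : ∀ i, a' (e i) = a i) (hc : ∀ i, c' (e i) = c i)
    (w : J' → F × F) (i : J) : eqn M dd a c (w ∘ e) i = eqn M' dd' a' c' w (e i) := by
  unfold eqn
  rw [hd, ha, hc]
  congr 2
  rw [← Equiv.sum_comp e]
  refine sum_congr rfl fun j _ => ?_
  by_cases h : j = i
  · subst h
    simp
  · rw [if_neg h, if_neg (fun h' => h (e.injective h')), hM i j (Ne.symm h)]
    rfl

theorem Kn_re {J J' : Type} [Fintype J] [Fintype J'] (e : J ≃ J') {M : J → J → F} {M' : J' → J' → F}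
    {dd : J → F} {dd' : J' → F} {a c : J → F2} {a' c' : J' → F2} (hM : ∀ i j, i ≠ j → M' (e i) (e j) = M i j)
    (hd : ∀ i, dd' (e i) = dd i) (ha : ∀ i, a' (e i) = a i) (hc : ∀ i, c' (e i) = c i) :
    Nat.card (Kn M dd a c) = Nat.card (Kn M' dd' a' c') ∧ (Kn M dd a c = ⊥ ↔ Kn M' dd' a' c' = ⊥) := by
  set E : (J → F × F) ≃ (J' → F × F) := Equiv.arrowCongr e (Equiv.refl _) with hE
  have hmem : ∀ w : J → F × F, w ∈ Kn M dd a c ↔ E w ∈ Kn M' dd' a' c' := by
    intro w
    rw [mem_Kn, mem_Kn]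
    have h1 : w = (E w) ∘ e := by
      funext i
      simp [hE, Equiv.arrowCongr]
    constructor
    · intro h i'
      obtain ⟨i, rfl⟩ := e.surjective i'
      rw [← eqn_re e hM hd ha hc, ← h1]
      exact h i
    · intro h i
      rw [h1, eqn_re e hM hd ha hc]
      exact h _
  refine ⟨Nat.card_congr (E.subtypeEquiv hmem), ?_⟩
  have hz : ∀ w : J → F × F, w = 0 ↔ E w = 0 := by
    intro w
    constructor
    · rintro rfl
      rfl
    · intro h
      funext i
      have := congrFun h (e i)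
      simpa [hE, Equiv.arrowCongr] using this
  rw [Submodule.eq_bot_iff, Submodule.eq_bot_iff]
  constructor
  · intro h w' hw'
    obtain ⟨w, rfl⟩ := E.surjective w'
    exact (hz w).1 (h w ((hmem w).2 hw'))
  · intro h w hw
    exact (hz w).2 (h _ ((hmem w).1 hw))

end re

section frob

variable {F : Type} [Field F] [Algebra F2 F]

theorem charF : CharP F 2 := charP_of_injective_algebraMap (algebraMap F2 F).injective 2

theorem cf_pow (x : F2) (n : ℕ) : (cf x : F) ^ 2 ^ n = cf x := by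
  have h : ∀ x : F2, x = 0 ∨ x = 1 := by decide
  rcases h x with rfl | rfl
  · simp [cf]
  · simp [cf]

theorem own_pow {k : Type} [Field k] [Fintype k] {r : ℕ} (hr : 0 < r) {ξ : F} (hξ : ξ ^ r = 1) {n : ℕ}
    (hn : ξ ^ 2 ^ n = ξ⁻¹) {P : k[X]} (hsy : ∀ c < r, 0 < c → sy r P P c = sy r P P (r - c)) :
    own r ξ P ^ 2 ^ n = own r ξ P := by
  have := charF (F := F)
  have hξ0 : ξ ≠ 0 := by
    rintro rfl
    rw [zero_pow hr.ne'] at hξ
    exact zero_ne_one hξ
  have h1 : own r ξ P ^ 2 ^ n = iterateFrobenius F 2 n (own r ξ P) := by rw [iterateFrobenius_def]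
  rw [h1]
  unfold own
  rw [map_sum]
  have h2 : ∀ c, iterateFrobenius F 2 n (cf (sy r P P c) * (1 + ξ ^ c)) = cf (sy r P P c) * (1 + (ξ ^ c)⁻¹) := by
    intro c
    rw [map_mul, map_add, map_one, iterateFrobenius_def, iterateFrobenius_def, cf_pow, ← pow_mul, mul_comm c,
      pow_mul, hn, inv_pow]
  rw [sum_congr rfl fun c _ => h2 c]
  -- reindexing
  have hzero : (1 : F) + 1 = 0 := CharTwo.add_self_eq_zero 1
  obtain ⟨s, rfl⟩ : ∃ s, r = s + 1 := ⟨r - 1, by omega⟩
  rw [sum_range_succ', sum_range_succ']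
  simp only [pow_zero, inv_one, hzero, mul_zero, add_zero]
  rw [← sum_range_reflect]
  refine sum_congr rfl fun c hc => ?_
  rw [mem_range] at hc
  have e1 : s - 1 - c + 1 = s + 1 - (c + 1) := by omega
  rw [e1, ← hsy (c + 1) (by omega) (by omega)]
  congr 2
  apply inv_eq_of_mul_eq_one_right
  rw [← pow_add]
  have e2 : s + 1 - (c + 1) + (c + 1) = s + 1 := by omega
  rw [e2, hξ]

end frob

theorem fin_range (g : ℕ) (f : ℕ → F2) : ∑ c : Fin g, f c = ∑ c ∈ range g, f c := (sum_range f).symm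

theorem t_REA (h1 : S_SYP) (h2 : S_UNR) (h3 : S_PRD) : S_REA := by
  intro k _ _ hk hm a b hΔ N m P0 mv hN hce T hT
  set Δ := a * b * (a - b) with hΔd
  obtain ⟨p1, p2, p3, p4, p5, p6⟩ := h3 k Δ hΔ
  obtain ⟨hfam, hdeg, hfix⟩ := p6 m P0 mv hce T hT
  have hne : ∀ i j, i ≠ j → T i ≠ T j := fun i j h h' => h (hfam.inj h')
  have hgp : ∀ i j : Fin m, 0 < gg N (dg P0) i j := fun i j => Nat.gcd_pos_of_pos_left _ hN
  have hgi : ∀ i j : Fin m, gg N (dg P0) i j ∣ (T i).natDegree := fun i j => by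
    rw [hdeg]
    exact (Nat.gcd_dvd_right _ _).trans (Nat.gcd_dvd_left _ _)
  have hgj : ∀ i j : Fin m, gg N (dg P0) i j ∣ (T j).natDegree := fun i j => by
    rw [hdeg]
    exact (Nat.gcd_dvd_right _ _).trans (Nat.gcd_dvd_right _ _)
  have hsum : ∀ i j, i ≠ j → ∑ c, sT N P0 T i j c = L (T i) (T j) := by
    intro i j hij
    have e := (h1 k hk hm (T i) (T j) (gg N (dg P0) i j) (hfam.mon i) (hfam.irr i) (hfam.mon j) (hfam.irr j)
      (hgp i j) (hgi i j) (hgj i j)).1 (hne i j hij)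
    rw [← e]
    exact fin_range _ fun c => sy (gg N (dg P0) i j) (T i) (T j) c
  have hA : ∀ i j, i ≠ j → AA N (dg P0) mv (A0R T) (sT N P0 T) i j = L (T j) (T i) := by
    intro i j hij
    unfold AA
    split_ifs with c1 c2
    · exact hsum j i hij.symm
    · rw [hsum i j hij, L_comm hm]
    · rfl
  refine ⟨hA, ?_⟩
  intro r F _ _ _ ξ hξ hrN
  have hr0 : 0 < r := by have := hξ.lt; omega
  have hξr : ξ ^ r = 1 := by rw [← hξ.ord]; exact pow_orderOf_eq_one ξ
  have hξ0 : ξ ≠ 0 := by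
    intro h
    rw [h, zero_pow hr0.ne'] at hξr
    exact zero_ne_one hξr
  have hξr' : ξ⁻¹ ^ r = 1 := by rw [inv_pow, hξr, inv_one]
  obtain ⟨u1, u2, u3, u4, u5, u6, u7⟩ := h2 r F ξ hξ
  -- SYP (5) and (6)
  have hev : ∀ i j, i ≠ j → ∀ g, 0 < g → g ∣ (T i).natDegree → g ∣ (T j).natDegree → r ∣ g → ∀ ζ : F,
      ζ ^ r = 1 → hv r ζ (T i) (T j) = ev ζ (fun c : Fin g => sy g (T i) (T j) c) := by
    intro i j hij g hg hgi hgj hrg ζ hζ
    exact (h1 k hk hm (T i) (T j) g (hfam.mon i) (hfam.irr i) (hfam.mon j) (hfam.irr j)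
      hg hgi hgj).2.2.2.2.1 (hne i j hij) F ζ r hr0 hrg hζ
  have hinv : ∀ i j, i ≠ j → r ∣ (T i).natDegree → r ∣ (T j).natDegree →
      hv r ξ (T j) (T i) = hv r ξ⁻¹ (T i) (T j) := by
    intro i j hij hi hj
    exact (h1 k hk hm (T i) (T j) r (hfam.mon i) (hfam.irr i) (hfam.mon j) (hfam.irr j)
      hr0 hi hj).2.2.2.2.2 (hne i j hij) F ξ hξr
  refine ⟨?_, ?_⟩
  · -- Hermitian
    intro hU
    obtain ⟨w1, w2, w3, w4⟩ := u7 hU
    refine ⟨fun i j hi hj _ => ?_, fun i hi => ?_⟩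
    · unfold FxR
      by_cases hij : i = j
      · rw [if_pos hij, if_pos hij.symm, zero_pow (by positivity)]
      · rw [if_neg hij, if_neg (Ne.symm hij)]
        have hi' : r ∣ (T i).natDegree := by rw [hdeg]; exact hi
        have hj' : r ∣ (T j).natDegree := by rw [hdeg]; exact hj
        rw [hinv j i (Ne.symm hij) hj' hi', hev j i (Ne.symm hij) r hr0 hj' hi' dvd_rfl ξ⁻¹ hξr',
          hev j i (Ne.symm hij) r hr0 hj' hi' dvd_rfl ξ hξr]
        exact (w4 r _).1
    · have hi' : r ∣ (T i).natDegree := by rw [hdeg]; exact hi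
      exact own_pow hr0 hξr w2 fun c hc hc0 =>
        (h1 k hk hm (T i) (T i) r (hfam.mon i) (hfam.irr i) (hfam.mon i) (hfam.irr i) hr0 hi' hi').2.2.2.1
          c hc hc0
  · obtain ⟨q1, q2⟩ := p1 (Fin m) T hfam
    set D := ∏ i, T i with hD
    have hmem : ∀ i, T i ∈ pr D := fun i => by rw [q1]; exact mem_image_of_mem _ (mem_univ _)
    let e0 : Fin m ≃ {P : k[X] // P ∈ pr D} := Equiv.ofBijective (fun i => ⟨T i, hmem i⟩) (by
      constructor
      · intro i j h
        exact hfam.inj (congrArg Subtype.val h)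
      · rintro ⟨P, hP⟩
        have hP' := hP
        rw [q1, mem_image] at hP'
        obtain ⟨i, _, hi⟩ := hP'
        exact ⟨i, Subtype.ext hi⟩)
    have he0 : ∀ i, ((e0 i : {P : k[X] // P ∈ pr D}) : k[X]) = T i := fun i => rfl
    let e : {i : Fin m // r ∣ dg P0 i} ≃ {i : {P : k[X] // P ∈ pr D} // r ∣ (i.1).natDegree} :=
      e0.subtypeEquiv fun i => by rw [he0, hdeg]
    have he : ∀ i : {i : Fin m // r ∣ dg P0 i}, ((e i).1 : {P : k[X] // P ∈ pr D}) = e0 i.1 := fun i => rfl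
    have key := Kn_re (F := F) e
      (M := fun i j => MM N (dg P0) mv (FxR r ξ T) ξ (sT N P0 T) i.1 j.1)
      (M' := fun i j => hv r ξ (j.1 : k[X]) (i.1 : k[X]))
      (dd := fun i => owR r ξ T i.1 + cf (alR a T i.1 + ∑ j, if j = i.1 then 0 else
        AA N (dg P0) mv (A0R T) (sT N P0 T) i.1 j))
      (dd' := fun i => own r ξ (i.1 : k[X]) + cf (L a (i.1 : k[X]) + ∑ j : {P : k[X] // P ∈ pr D},
        if j = i.1 then 0 else L (j : k[X]) (i.1 : k[X])))
      (a := fun i => acR a b T i.1) (c := fun i => ccR a b T i.1)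
      (a' := fun i => L (a * (a - b)) (i.1 : k[X])) (c' := fun i => L (a * b) (i.1 : k[X]))
      ?_ ?_ ?_ ?_
    · unfold KM KD KF
      convert key using 14
    · -- the matrix
      intro i j hij
      have hij' : i.1 ≠ j.1 := fun h => hij (Subtype.ext h)
      have hi' : r ∣ (T i.1).natDegree := by rw [hdeg]; exact i.2
      have hj' : r ∣ (T j.1).natDegree := by rw [hdeg]; exact j.2
      show hv r ξ ((e j).1 : k[X]) ((e i).1 : k[X]) = MM N (dg P0) mv (FxR r ξ T) ξ (sT N P0 T) i.1 j.1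
      rw [he, he, he0, he0]
      unfold MM
      have hrg : ∀ x y : {i : Fin m // r ∣ dg P0 i}, r ∣ gg N (dg P0) x.1 y.1 := fun x y =>
        Nat.dvd_gcd hrN (Nat.dvd_gcd x.2 y.2)
      split_ifs with c1 c2
      · exact hev j.1 i.1 hij'.symm _ (hgp _ _) (hgi _ _) (hgj _ _) (hrg j i) ξ hξr
      · rw [hinv i.1 j.1 hij' hi' hj']
        exact hev i.1 j.1 hij' _ (hgp _ _) (hgi _ _) (hgj _ _) (hrg i j) ξ⁻¹ hξr'
      · unfold FxR
        rw [if_neg hij']
    · -- the diagonal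
      intro i
      show own r ξ ((e i).1 : k[X]) + cf (L a ((e i).1 : k[X]) + ∑ j : {P : k[X] // P ∈ pr D},
        if j = (e i).1 then 0 else L (j : k[X]) ((e i).1 : k[X])) = _
      rw [he, he0]
      congr 2
      · congr 1
        rw [← Equiv.sum_comp e0]
        refine sum_congr rfl fun j _ => ?_
        by_cases hji : j = i.1
        · rw [if_pos hji, if_pos (by rw [hji])]
        · rw [if_neg hji, if_neg (fun h => hji (e0.injective h)), he0, hA i.1 j (Ne.symm hji)]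
    · intro i
      rfl
    · intro i
      rfl

end Pool.Agent.Q210.GR
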