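import Pool.Agent.Q269.GR.StB

set_option autoImplicit false
set_option linter.all false

open scoped Classical
open Finset Polynomial

namespace Pool.Agent.Q210.GR

open Pool.Agent.Q269.GR Pool.Agent.H341R2.Sharp

variable {k : Type} [Field k] [Fintype k]

theorem mem_Irn {d : ℕ} {P : k[X]} : P ∈ Irn k d ↔ P.Monic ∧ P.natDegree = d ∧ Irreducible P := by
  unfold Irn
  rw [mem_filter, mem_Mon]
  tauto

/-- the number of monic irreducible polynomials -/
theorem sum_irn {d : ℕ} (hd : 0 < d) :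
    ∑ e ∈ d.divisors, e * (Irn k e).card = Fintype.card k ^ d := by
  set q := Fintype.card k with hq
  have hq1 : 1 < q := Fintype.one_lt_card
  set f : k[X] := X ^ q ^ d - X with hf
  have hf0 : f ≠ 0 := FiniteField.X_pow_card_pow_sub_X_ne_zero _ hd.ne' hq1
  have hfd : f.natDegree = q ^ d := FiniteField.X_pow_card_pow_sub_X_natDegree_eq _ hd.ne' hq1
  have hmon : f.Monic := by
    refine monic_X_pow_sub ?_ 
    rw [degree_X]
    exact_mod_cast Nat.one_lt_pow hd.ne' hq1
  have hsep : f.Separable := by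
    have h0 : ((q ^ d : ℕ) : k) = 0 := by
      rw [Nat.cast_pow, hq, FiniteField.cast_card_eq_zero, zero_pow hd.ne']
    rw [hf, separable_def]
    refine ⟨0, -1, ?_⟩
    rw [derivative_sub, derivative_X_pow, derivative_X, h0]
    simp
  have hsq : Squarefree f := hsep.squarefree
  set s := (UniqueFactorizationMonoid.normalizedFactors f).toFinset with hs
  have hnd : (UniqueFactorizationMonoid.normalizedFactors f).Nodup :=
    (UniqueFactorizationMonoid.squarefree_iff_nodup_normalizedFactors hf0).1 hsq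
  have hmem : ∀ P, P ∈ s ↔ P.Monic ∧ Irreducible P ∧ P.natDegree ∣ d := by
    intro P
    rw [hs, Multiset.mem_toFinset, UniqueFactorizationMonoid.mem_normalizedFactors_iff' hf0]
    constructor
    · rintro ⟨a, b, c⟩
      have hm : P.Monic := by
        rw [← b]
        exact monic_normalize a.ne_zero
      refine ⟨hm, a, ?_⟩
      refine a.natDegree_dvd_iff_dvd_X_pow_card_pow_sub_X.2 ?_
      rw [Nat.card_eq_fintype_card]
      exact c
    · rintro ⟨a, b, c⟩
      refine ⟨b, a.normalize_eq_self, ?_⟩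
      have := b.natDegree_dvd_iff_dvd_X_pow_card_pow_sub_X.1 c
      rw [Nat.card_eq_fintype_card] at this
      exact this
  have hprod : ∏ P ∈ s, P = f := by
    have e1 : ∏ P ∈ s, P = (UniqueFactorizationMonoid.normalizedFactors f).prod := by
      rw [hs, Finset.prod, Multiset.toFinset_val, Multiset.dedup_eq_self.2 hnd, Multiset.map_id']
    have e3 : (∏ P ∈ s, P).Monic := monic_prod_of_monic _ _ fun P hP => ((hmem P).1 hP).1
    refine eq_of_monic_of_associated e3 hmon ?_
    rw [e1]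
    exact UniqueFactorizationMonoid.prod_normalizedFactors hf0
  have h1 : ∑ P ∈ s, P.natDegree = q ^ d := by
    rw [← hfd, ← hprod, natDegree_prod_of_monic]
    intro P hP
    exact ((hmem P).1 hP).1
  have h2 : s = d.divisors.biUnion (fun e => Irn k e) := by
    ext P
    rw [hmem, mem_biUnion]
    constructor
    · rintro ⟨a, b, c⟩
      exact ⟨_, Nat.mem_divisors.2 ⟨c, hd.ne'⟩, mem_Irn.2 ⟨a, rfl, b⟩⟩
    · rintro ⟨e, he, h⟩
      obtain ⟨a, b, c⟩ := mem_Irn.1 h
      exact ⟨a, c, b ▸ Nat.dvd_of_mem_divisors he⟩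
  rw [h2, sum_biUnion] at h1
  · rw [← h1]
    refine sum_congr rfl fun e _ => ?_
    rw [sum_congr rfl (fun P hP => (mem_Irn.1 hP).2.1), sum_const, smul_eq_mul, mul_comm]
  · intro a _ b _ hab
    rw [Function.onFun, Finset.disjoint_left]
    intro P hP hP'
    exact hab ((mem_Irn.1 hP).2.1.symm.trans (mem_Irn.1 hP').2.1)

theorem irn_one_le {d : ℕ} (hd : 0 < d) : d * (Irn k d).card ≤ Fintype.card k ^ d := by
  rw [← sum_irn hd]
  exact single_le_sum (f := fun e => e * (Irn k e).card) (fun _ _ => Nat.zero_le _)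
    (Nat.mem_divisors.2 ⟨dvd_rfl, hd.ne'⟩)

theorem geo {q : ℕ} (hq : 2 ≤ q) (m : ℕ) : ∑ j ∈ Icc 1 m, q ^ j ≤ 2 * q ^ m := by
  induction m with
  | zero => simp
  | succ m ih =>
    rw [sum_Icc_succ_top (by omega), pow_succ]
    have : q ^ m * 2 ≤ q ^ m * q := Nat.mul_le_mul_left _ hq
    omega

theorem irn_ge {d : ℕ} (hd : 0 < d) :
    Fintype.card k ^ d ≤ d * (Irn k d).card + 2 * Fintype.card k ^ (d / 2) := by
  have hq1 : 1 < Fintype.card k := Fintype.one_lt_card
  rw [← sum_irn hd, ← Nat.insert_self_properDivisors hd.ne', sum_insert (by simp)]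
  refine Nat.add_le_add_left ?_ _
  refine le_trans (sum_le_sum fun e he => ?_) (le_trans (sum_le_sum_of_subset (?_ : _ ⊆ Icc 1 (d / 2)))
    (geo hq1 _))
  · exact irn_one_le (Nat.pos_of_mem_properDivisors he)
  · intro e he
    obtain ⟨h1, h2⟩ := Nat.mem_properDivisors.1 he
    obtain ⟨c, rfl⟩ := h1
    have he0 : 0 < e := Nat.pos_of_mem_properDivisors he
    rw [mem_Icc]
    refine ⟨he0, ?_⟩
    rw [Nat.le_div_iff_mul_le (by norm_num)]
    refine Nat.mul_le_mul_left _ ?_
    by_contra hc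
    have : c ≤ 1 := by omega
    have := Nat.mul_le_mul_left e this
    omega

theorem t_IRC : S_IRC := by
  intro k _ _ hk d hd
  set q := Fintype.card k with hq
  have hqr : (5 : ℝ) ≤ q := by exact_mod_cast hk
  have h1 : (d : ℝ) * (Irn k d).card ≤ (q : ℝ) ^ d := by exact_mod_cast irn_one_le (k := k) hd
  have h2 : (q : ℝ) ^ d ≤ d * (Irn k d).card + 2 * (q : ℝ) ^ (d / 2) := by
    exact_mod_cast irn_ge (k := k) hd
  have h3 : (q : ℝ) ^ (d / 2) ≤ Real.sqrt ((q : ℝ) ^ d) := by
    refine Real.le_sqrt_of_sq_le ?_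
    rw [← pow_mul]
    exact pow_le_pow_right₀ (by linarith) (Nat.div_mul_le_self d 2)
  refine ⟨h1, ?_, by linarith⟩
  rcases Nat.lt_or_ge d 2 with hd2 | hd2
  · have hd1 : d = 1 := by omega
    subst hd1
    have := sum_irn (k := k) (d := 1) one_pos
    simp at this
    rw [this]
    simp
    linarith
  · have h4 : (4 : ℝ) ≤ Real.sqrt ((q : ℝ) ^ d) := by
      refine Real.le_sqrt_of_sq_le ?_
      calc (4 : ℝ) ^ 2 ≤ 5 ^ 2 := by norm_num
        _ ≤ (q : ℝ) ^ 2 := by gcongr
        _ ≤ (q : ℝ) ^ d := pow_le_pow_right₀ (by linarith) hd2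
    have h5 : Real.sqrt ((q : ℝ) ^ d) ^ 2 = (q : ℝ) ^ d := Real.sq_sqrt (by positivity)
    nlinarith

end Pool.Agent.Q210.GR
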