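import Pool.Agent.Q269.GR.StD
import Pool.Agent.Q210.GR.Irc

set_option autoImplicit false
set_option linter.all false

open scoped Classical
open Finset Polynomial

namespace Pool.Agent.Q210.GR

open Pool.Agent.Q269.GR
open Pool.Agent.Y164.PS (L sg L_comm)

/-- sums of products over a box -/
theorem box_le {m : ℕ} {α : Type} (C : Fin m → Finset α) (Λ : Finset (Fin m)) (w : Fin m → α → ℝ)
    (hw : ∀ j x, 0 ≤ w j x) {t : ℝ} (h : ∀ j ∈ Λ, ∑ x ∈ C j, w j x ≤ t * (C j).card) :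
    ∑ T ∈ Fintype.piFinset C, ∏ j ∈ Λ, w j (T j) ≤ t ^ Λ.card * (Fintype.piFinset C).card := by
  have h1 : ∀ T : Fin m → α, ∏ j ∈ Λ, w j (T j) = ∏ j, (if j ∈ Λ then w j (T j) else 1) := by
    intro T
    rw [prod_ite, prod_const_one, mul_one]
    congr 1
    ext j
    simp
  have h2 : ∑ T ∈ Fintype.piFinset C, ∏ j ∈ Λ, w j (T j) =
      ∏ j, ∑ x ∈ C j, (if j ∈ Λ then w j x else 1) := by
    rw [Finset.prod_univ_sum]
    exact sum_congr rfl fun T _ => h1 T
  rw [h2]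
  have h3 : ∀ j, ∑ x ∈ C j, (if j ∈ Λ then w j x else 1) ≤ (if j ∈ Λ then t else 1) * (C j).card := by
    intro j
    by_cases hj : j ∈ Λ
    · simp only [if_pos hj]
      exact h j hj
    · simp only [if_neg hj]
      simp
  refine (prod_le_prod (fun j _ => sum_nonneg fun x _ => ?_) fun j _ => h3 j).trans (le_of_eq ?_)
  · split_ifs
    · exact hw j x
    · exact zero_le_one
  · rw [prod_mul_distrib, Fintype.card_piFinset, prod_ite, prod_const_one, mul_one, prod_const]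
    push_cast
    congr 3
    ext j
    simp

theorem box_count {m : ℕ} {α : Type} (C : Fin m → Finset α) (Λ : Finset (Fin m)) (p : Fin m → α → Prop)
    {t : ℝ} (h : ∀ j ∈ Λ, (((C j).filter (p j)).card : ℝ) ≤ t * (C j).card) :
    (((Fintype.piFinset C).filter fun T => ∀ j ∈ Λ, p j (T j)).card : ℝ) ≤
      t ^ Λ.card * (Fintype.piFinset C).card := by
  refine le_trans (le_of_eq ?_) (box_le C Λ (fun j x => if p j x then 1 else 0) (fun j x => by split_ifs <;> norm_num)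
    (fun j hj => ?_))
  · rw [card_filter]
    push_cast
    refine sum_congr rfl fun T _ => ?_
    by_cases hT : ∀ j ∈ Λ, p j (T j)
    · rw [if_pos hT]
      exact (prod_eq_one fun j hj => if_pos (hT j hj)).symm
    · rw [if_neg hT]
      push Not at hT
      obtain ⟨j, hj, hpj⟩ := hT
      exact (prod_eq_zero hj (if_neg hpj)).symm
  · refine le_trans (le_of_eq ?_) (h j hj)
    rw [card_filter]
    push_cast
    rfl

theorem box_few {m : ℕ} {α : Type} (C : Fin m → Finset α) (Λ : Finset (Fin m)) (p : Fin m → α → Prop)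
    (M : ℕ) (h : ∀ j ∈ Λ, (1 / 3 : ℝ) * (C j).card ≤ ((C j).filter (p j)).card) :
    (((Fintype.piFinset C).filter fun T => (Λ.filter fun j => p j (T j)).card < M).card : ℝ) ≤
      2 ^ M * (5 / 6) ^ Λ.card * (Fintype.piFinset C).card := by
  have h1 := box_le C Λ (fun j x => if p j x then (1 / 2 : ℝ) else 1) (fun j x => by split_ifs <;> norm_num)
    (t := 5 / 6) (fun j hj => ?_)
  · rw [card_filter]
    push_cast
    calc ∑ T ∈ Fintype.piFinset C, (if (Λ.filter fun j => p j (T j)).card < M then (1 : ℝ) else 0)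
        ≤ ∑ T ∈ Fintype.piFinset C, 2 ^ M * ∏ j ∈ Λ, (if p j (T j) then (1 / 2 : ℝ) else 1) := by
          refine sum_le_sum fun T _ => ?_
          rw [prod_ite, prod_const_one, mul_one, prod_const]
          split_ifs with hc
          · set c := (Λ.filter fun j => p j (T j)).card
            have e : (1 : ℝ) = 2 ^ c * (1 / 2) ^ c := by
              rw [← mul_pow]; norm_num
            calc (1 : ℝ) = 2 ^ c * (1 / 2) ^ c := e
              _ ≤ 2 ^ M * (1 / 2) ^ c := by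
                  refine mul_le_mul_of_nonneg_right (pow_le_pow_right₀ (by norm_num) hc.le) (by positivity)
          · positivity
      _ ≤ 2 ^ M * ((5 / 6) ^ Λ.card * (Fintype.piFinset C).card) := by
          rw [← mul_sum]
          exact mul_le_mul_of_nonneg_left h1 (by positivity)
      _ = _ := by ring
  · have h2 := h j hj
    have h3 : ∑ x ∈ C j, (if p j x then (1 / 2 : ℝ) else 1) = (C j).card - (1 / 2) * ((C j).filter (p j)).card := by
      rw [card_filter]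
      push_cast
      have : ((C j).card : ℝ) = ∑ x ∈ C j, (1 : ℝ) := by simp
      rw [this, mul_sum, ← sum_sub_distrib]
      refine sum_congr rfl fun x _ => ?_
      split_ifs <;> norm_num
    rw [h3]
    linarith

theorem ord_le {r : ℕ} (hr : 1 < r) (ho : Odd r) : orderOf (2 : ZMod r) ≤ r := by
  have hc : Nat.Coprime 2 r := (Nat.coprime_two_left).2 ho
  set u := ZMod.unitOfCoprime 2 hc with hu
  have h1 : (2 : ZMod r) ^ Nat.totient r = 1 := by
    have := ZMod.pow_totient u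
    have h2 := congrArg Units.val this
    rw [Units.val_pow_eq_pow_val, hu, ZMod.coe_unitOfCoprime, Units.val_one] at h2
    exact_mod_cast h2
  refine (orderOf_le_of_pow_eq_one (Nat.totient_pos.2 (by omega)) h1).trans (Nat.totient_le r)

variable {k : Type} [Field k] [Fintype k]

theorem one_prime (h1 : S_INJ) (h4 : S_IRC) (hk : ringChar k ≠ 2) (hq : 5 ≤ Fintype.card k)
    {Δ : k[X]} {m : ℕ} {P0 : Fin m → k[X]} {mv : Finset (Fin m)} (hce : IsCe Δ P0 mv)
    {r : ℕ} {F : Type} [Field F] [Fintype F] [Algebra F2 F] {ζ : F} (hζ : IsRt r ζ) (hF4 : 4 ≤ Fintype.card F)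
    {j : Fin m} (hj : j ∈ mv) (hrj : r ∣ dg P0 j)
    (hbig : 12 * 2 ^ r * (∑ i ∈ univ.filter (· ∉ mv), (dg P0 i : ℝ) + 2) ≤
      Real.sqrt ((Fintype.card k : ℝ) ^ dg P0 j))
    {v : Fin m → F} (hv0 : v ≠ 0) (hvs : ∀ i, ¬ (i ∉ mv ∧ r ∣ dg P0 i) → v i = 0) :
    (((Ce P0 mv j).filter fun P' => ∑ i, v i * hv r ζ (P0 i) P' = 0).card : ℝ) ≤
      4 / (3 * Fintype.card F) * (Ce P0 mv j).card := by
  have hC : Ce P0 mv j = Irn k (dg P0 j) := by rw [Ce, if_pos hj]
  rw [hC]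
  set d := dg P0 j with hd
  have hd0 : 0 < d := (hce.fam.irr j).natDegree_pos
  set ν := {i : Fin m // i ∉ mv ∧ r ∣ dg P0 i} with hν
  have hinj : Function.Injective (fun κ : ν => P0 κ.1) := fun x y h => Subtype.ext (hce.fam.inj h)
  have hv' : (fun κ : ν => v κ.1) ≠ 0 := by
    intro h
    apply hv0
    funext i
    by_cases hi : i ∉ mv ∧ r ∣ dg P0 i
    · exact congrFun h ⟨i, hi⟩
    · exact hvs i hi
  have key := h1 k hk r F ζ hζ ν (fun κ => P0 κ.1) (fun κ => hce.fam.mon κ.1) (fun κ => hce.fam.irr κ.1) hinj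
    (fun κ => κ.2.2) d hd0 hrj (fun κ => (hce.fix j hj κ.1 κ.2.1).symm) (fun κ => v κ.1) hv'
  have hsum : ∀ P' : k[X], ∑ κ : ν, v κ.1 * hv r ζ (P0 κ.1) P' = ∑ i, v i * hv r ζ (P0 i) P' := by
    intro P'
    have h2 : ∑ i, v i * hv r ζ (P0 i) P' = ∑ i ∈ univ.filter (fun i => i ∉ mv ∧ r ∣ dg P0 i),
        v i * hv r ζ (P0 i) P' := by
      rw [sum_filter]
      refine sum_congr rfl fun i _ => ?_
      split_ifs with hi
      · rfl
      · rw [hvs i hi, zero_mul]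
    rw [h2]
    exact (Finset.sum_subtype (univ.filter (fun i => i ∉ mv ∧ r ∣ dg P0 i)) (fun i => by simp)
      (fun i => v i * hv r ζ (P0 i) P')).symm
  simp only [hsum] at key
  have hD : ∑ κ : ν, ((P0 κ.1).natDegree : ℝ) ≤ ∑ i ∈ univ.filter (· ∉ mv), (dg P0 i : ℝ) := by
    have h2 : ∑ κ : ν, ((P0 κ.1).natDegree : ℝ) = ∑ i ∈ univ.filter (fun i => i ∉ mv ∧ r ∣ dg P0 i),
        (dg P0 i : ℝ) :=
      (Finset.sum_subtype (univ.filter (fun i => i ∉ mv ∧ r ∣ dg P0 i)) (fun i => by simp)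
        (fun i => (dg P0 i : ℝ))).symm
    rw [h2]
    refine sum_le_sum_of_subset_of_nonneg (fun i hi => ?_) fun _ _ _ => by positivity
    rw [mem_filter] at hi ⊢
    exact ⟨hi.1, hi.2.1⟩
  set Dd := ∑ i ∈ univ.filter (· ∉ mv), (dg P0 i : ℝ) with hDd
  have hDd0 : 0 ≤ Dd := sum_nonneg fun _ _ => by positivity
  set s := Real.sqrt ((Fintype.card k : ℝ) ^ d) with hs
  have hs2 : (Fintype.card k : ℝ) ^ d = s ^ 2 := (Real.sq_sqrt (by positivity)).symm
  have hirc := (h4 k hq d hd0).2.2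
  rw [hs2] at key hirc
  rw [Real.sqrt_sq (by positivity)] at hirc
  have hF4' : (4 : ℝ) ≤ Fintype.card F := by exact_mod_cast hF4
  have hFr : (Fintype.card F : ℝ) ≤ 2 ^ r := by
    rw [hζ.card]
    push_cast
    exact pow_le_pow_right₀ (by norm_num) (ord_le hζ.lt hζ.odd)
  set f := (Fintype.card F : ℝ) with hf
  have hbig2 : 12 * f * (Dd + 2) ≤ s := by
    refine le_trans ?_ hbig
    have : 0 ≤ Dd + 2 := by linarith
    nlinarith [mul_le_mul_of_nonneg_right hFr this]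
  have hs0 : 0 < s := by nlinarith
  have hdR : (0 : ℝ) < d := by exact_mod_cast hd0
  have h3 : (d : ℝ) * (((Irn k d).filter fun P' => ∑ i, v i * hv r ζ (P0 i) P' = 0).card : ℝ) ≤
      s ^ 2 / f + Dd * s := by
    refine key.trans ?_
    have := mul_le_mul_of_nonneg_right hD hs0.le
    linarith
  have h5 : s ^ 2 / f + Dd * s ≤ 4 / (3 * f) * (s ^ 2 - 2 * s) := by
    have hf0 : 0 < f := by linarith
    rw [div_add' _ _ _ hf0.ne', div_mul_eq_mul_div, div_le_div_iff₀ hf0 (by positivity)]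
    have e1 : 3 * f * Dd + 8 ≤ s := by nlinarith
    have e2 := mul_le_mul_of_nonneg_right e1 (mul_pos hs0 hf0).le
    nlinarith
  have h6 : (d : ℝ) * (((Irn k d).filter fun P' => ∑ i, v i * hv r ζ (P0 i) P' = 0).card : ℝ) ≤
      d * (4 / (3 * f) * (Irn k d).card) := by
    have hf0 : 0 < f := by linarith
    have := mul_le_mul_of_nonneg_left hirc (by positivity : 0 ≤ 4 / (3 * f))
    linarith
  exact le_of_mul_le_mul_left h6 hdR

theorem bad_inj (h1 : S_INJ) (h4 : S_IRC) (hk : ringChar k ≠ 2) (hq : 5 ≤ Fintype.card k)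
    {Δ : k[X]} {m : ℕ} {P0 : Fin m → k[X]} {mv : Finset (Fin m)} (hce : IsCe Δ P0 mv)
    {r : ℕ} {F : Type} [Field F] [Fintype F] [Algebra F2 F] {ζ : F} (hζ : IsRt r ζ) (hF4 : 4 ≤ Fintype.card F)
    (hbig : ∀ j ∈ mv, 12 * 2 ^ r * (∑ i ∈ univ.filter (· ∉ mv), (dg P0 i : ℝ) + 2) ≤
      Real.sqrt ((Fintype.card k : ℝ) ^ dg P0 j))
    (hcard : (univ.filter fun i => i ∉ mv ∧ r ∣ dg P0 i).card ≤ (mv.filter fun i => r ∣ dg P0 i).card) :
    (((Fintype.piFinset (Ce P0 mv)).filter fun T => ∃ v : Fin m → F, v ≠ 0 ∧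
      (∀ i, ¬ (i ∉ mv ∧ r ∣ dg P0 i) → v i = 0) ∧
      ∀ j ∈ mv.filter (fun i => r ∣ dg P0 i), ∑ i, v i * hv r ζ (P0 i) (T j) = 0).card : ℝ) ≤
      2 ^ (4 * (univ.filter fun i => i ∉ mv ∧ r ∣ dg P0 i).card + 64) *
        (5 / 6) ^ (mv.filter fun i => r ∣ dg P0 i).card * (Fintype.piFinset (Ce P0 mv)).card := by
  set S := univ.filter fun i => i ∉ mv ∧ r ∣ dg P0 i with hS
  set Λ := mv.filter fun i => r ∣ dg P0 i with hΛ
  set V := (univ : Finset (Fin m → F)).filter (fun v => v ≠ 0 ∧ ∀ i, i ∉ S → v i = 0) with hV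
  have hmemS : ∀ i, i ∈ S ↔ (i ∉ mv ∧ r ∣ dg P0 i) := fun i => by simp [hS]
  have hVc : V.card ≤ Fintype.card F ^ S.card := by
    have h2 : V.card ≤ (Fintype.piFinset (fun i : Fin m => if i ∈ S then (univ : Finset F) else {0})).card := by
      refine card_le_card fun v hv => ?_
      rw [Fintype.mem_piFinset]
      intro i
      have := (mem_filter.1 hv).2.2 i
      split_ifs with hi
      · exact mem_univ _
      · exact mem_singleton.2 (this hi)
    refine h2.trans (le_of_eq ?_)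
    rw [Fintype.card_piFinset]
    have : ∀ i : Fin m, (if i ∈ S then (univ : Finset F) else {0}).card = if i ∈ S then Fintype.card F else 1 := by
      intro i
      split_ifs
      · exact card_univ
      · exact card_singleton _
    rw [prod_congr rfl fun i _ => this i, prod_ite, prod_const_one, mul_one, prod_const]
    congr 2
    ext j
    simp
  have hunion : ((Fintype.piFinset (Ce P0 mv)).filter fun T => ∃ v : Fin m → F, v ≠ 0 ∧
      (∀ i, ¬ (i ∉ mv ∧ r ∣ dg P0 i) → v i = 0) ∧ ∀ j ∈ Λ, ∑ i, v i * hv r ζ (P0 i) (T j) = 0) ⊆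
      V.biUnion fun v => (Fintype.piFinset (Ce P0 mv)).filter fun T =>
        ∀ j ∈ Λ, ∑ i, v i * hv r ζ (P0 i) (T j) = 0 := by
    intro T hT
    obtain ⟨hT1, v, hv0, hvs, hvj⟩ := mem_filter.1 hT
    rw [mem_biUnion]
    refine ⟨v, mem_filter.2 ⟨mem_univ _, hv0, fun i hi => hvs i fun h => hi ((hmemS i).2 h)⟩,
      mem_filter.2 ⟨hT1, hvj⟩⟩
  have hF4' : (4 : ℝ) ≤ Fintype.card F := by exact_mod_cast hF4
  set f := (Fintype.card F : ℝ) with hf
  have hf0 : 0 < f := by linarith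
  have hone : ∀ v ∈ V, (((Fintype.piFinset (Ce P0 mv)).filter fun T =>
        ∀ j ∈ Λ, ∑ i, v i * hv r ζ (P0 i) (T j) = 0).card : ℝ) ≤
      (4 / (3 * f)) ^ Λ.card * (Fintype.piFinset (Ce P0 mv)).card := by
    intro v hvV
    obtain ⟨_, hv0, hvs⟩ := mem_filter.1 hvV
    refine box_count (Ce P0 mv) Λ (fun j P' => ∑ i, v i * hv r ζ (P0 i) P' = 0) fun j hj => ?_
    obtain ⟨hj1, hj2⟩ := mem_filter.1 hj
    exact one_prime h1 h4 hk hq hce hζ hF4 hj1 hj2 (hbig j hj1) hv0 fun i hi => hvs i fun h => hi ((hmemS i).1 h)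
  set Np := ((Fintype.piFinset (Ce P0 mv)).card : ℝ) with hNp
  have h7 : (((Fintype.piFinset (Ce P0 mv)).filter fun T => ∃ v : Fin m → F, v ≠ 0 ∧
      (∀ i, ¬ (i ∉ mv ∧ r ∣ dg P0 i) → v i = 0) ∧ ∀ j ∈ Λ, ∑ i, v i * hv r ζ (P0 i) (T j) = 0).card : ℝ) ≤
      f ^ S.card * ((4 / (3 * f)) ^ Λ.card * Np) := by
    have e1 := (card_le_card hunion).trans card_biUnion_le
    calc _ ≤ ∑ v ∈ V, (((Fintype.piFinset (Ce P0 mv)).filter fun T =>
        ∀ j ∈ Λ, ∑ i, v i * hv r ζ (P0 i) (T j) = 0).card : ℝ) := by exact_mod_cast e1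
      _ ≤ ∑ v ∈ V, (4 / (3 * f)) ^ Λ.card * Np := sum_le_sum hone
      _ = V.card * ((4 / (3 * f)) ^ Λ.card * Np) := by rw [sum_const, nsmul_eq_mul]
      _ ≤ _ := by
          refine mul_le_mul_of_nonneg_right ?_ (by positivity)
          have e9 : (V.card : ℝ) ≤ ((Fintype.card F ^ S.card : ℕ) : ℝ) := by exact_mod_cast hVc
          rw [Nat.cast_pow] at e9
          exact e9
  refine h7.trans ?_
  rw [← mul_assoc]
  refine mul_le_mul_of_nonneg_right ?_ (by positivity)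
  -- numbers
  obtain ⟨t, ht⟩ := Nat.exists_eq_add_of_le hcard
  have e2 : f ^ S.card * (4 / (3 * f)) ^ Λ.card = (4 / 3) ^ Λ.card * (1 / f) ^ t := by
    rw [ht, pow_add, pow_add]
    have e3 : (4 / (3 * f)) = (4 / 3) * (1 / f) := by field_simp
    rw [e3, mul_pow, mul_pow]
    have e4 : f ^ S.card * (1 / f) ^ S.card = 1 := by
      rw [← mul_pow, mul_one_div_cancel hf0.ne', one_pow]
    calc f ^ S.card * ((4 / 3) ^ S.card * (1 / f) ^ S.card * ((4 / 3) ^ t * (1 / f) ^ t)) =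
        (f ^ S.card * (1 / f) ^ S.card) * ((4 / 3) ^ S.card * (4 / 3) ^ t * (1 / f) ^ t) := by ring
      _ = _ := by rw [e4, one_mul]
  rw [e2]
  have e5 : (1 / f) ^ t ≤ (1 / 4 : ℝ) ^ t := by
    refine pow_le_pow_left₀ (by positivity) ?_ _
    exact one_div_le_one_div_of_le (by norm_num) hF4'
  calc (4 / 3) ^ Λ.card * (1 / f) ^ t ≤ (4 / 3) ^ Λ.card * (1 / 4 : ℝ) ^ t :=
        mul_le_mul_of_nonneg_left e5 (by positivity)
    _ = 4 ^ S.card * (1 / 3) ^ Λ.card := by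
        rw [ht, pow_add, pow_add]
        have e6 : (4 / 3 : ℝ) ^ t * (1 / 4) ^ t = (1 / 3) ^ t := by rw [← mul_pow]; norm_num
        have e7 : (4 / 3 : ℝ) ^ S.card = 4 ^ S.card * (1 / 3) ^ S.card := by rw [← mul_pow]; norm_num
        rw [mul_assoc, e6, e7]
        ring
    _ ≤ 2 ^ (4 * S.card + 64) * (5 / 6) ^ Λ.card := by
        refine mul_le_mul ?_ (pow_le_pow_left₀ (by norm_num) (by norm_num) _) (by positivity) (by positivity)
        calc (4 : ℝ) ^ S.card ≤ (2 ^ 4) ^ S.card := pow_le_pow_left₀ (by norm_num) (by norm_num) _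
          _ = 2 ^ (4 * S.card) := by rw [pow_mul]
          _ ≤ _ := pow_le_pow_right₀ (by norm_num) (by omega)

theorem t_NIC (h1 : S_INJ) (h2 : S_UNR) (h3 : S_SYP) (h4 : S_IRC) (h5 : S_PRD) : S_NIC := by
  intro k _ _ hk hm hq a b hΔ m P0 mv hce r F _ _ _ ξ hξ hty hbig hcard
  obtain ⟨_, _, _, _, _, p6⟩ := h5 k _ hΔ
  obtain ⟨_, u2, u3, _⟩ := h2 r F ξ hξ
  have hr0 : 0 < r := by have := hξ.lt; omega
  have hξr : ξ ^ r = 1 := by rw [← hξ.ord]; exact pow_orderOf_eq_one ξ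
  set S := univ.filter fun i => i ∉ mv ∧ r ∣ dg P0 i with hS
  set Λ := mv.filter fun i => r ∣ dg P0 i with hΛ
  set M := 4 * S.card + 64 with hM
  have hmemS : ∀ i, i ∈ S ↔ (i ∉ mv ∧ r ∣ dg P0 i) := fun i => by simp [hS]
  set Pi := Fintype.piFinset (Ce P0 mv) with hPi
  set Np := (Pi.card : ℝ) with hNp
  set X := 2 ^ M * (5 / 6) ^ Λ.card * Np with hX
  set A : F → Finset (Fin m → k[X]) := fun ζ => Pi.filter fun T => ∃ v : Fin m → F, v ≠ 0 ∧
      (∀ i, ¬ (i ∉ mv ∧ r ∣ dg P0 i) → v i = 0) ∧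
      ∀ j ∈ Λ, ∑ i, v i * hv r ζ (P0 i) (T j) = 0 with hA
  have hA1 : ((A ξ).card : ℝ) ≤ X := bad_inj h1 h4 hk hq hce hξ u3 hbig hcard
  have hA2 : ((A ξ⁻¹).card : ℝ) ≤ X := bad_inj h1 h4 hk hq hce u2 u3 hbig hcard
  set G : F2 × F2 → Finset (Fin m → k[X]) := fun pq => Pi.filter fun T =>
    (Λ.filter fun j => (L (a * (a - b)) (T j), L (a * b) (T j)) ≠ (0, 0) ∧
      (L (a * (a - b)) (T j), L (a * b) (T j)) ≠ pq).card < M with hG
  have hG1 : ∀ pq ∈ (univ : Finset (F2 × F2)).filter (fun x => x ≠ (0, 0)), ((G pq).card : ℝ) ≤ X := by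
    rintro ⟨p, q⟩ hpq
    have hpq' := (mem_filter.1 hpq).2
    have hb := box_few (Ce P0 mv) Λ (fun j P => (L (a * (a - b)) P, L (a * b) P) ≠ (0, 0) ∧
      (L (a * (a - b)) P, L (a * b) P) ≠ (p, q)) M (fun j hj => by
        have hj1 := (mem_filter.1 hj).1
        have hC : Ce P0 mv j = Irn k (dg P0 j) := by rw [Ce, if_pos hj1]
        rw [hC]
        convert hty j hj1 p q hpq' using 6)
    refine le_trans (le_of_eq ?_) hb
    rw [hG]
    congr!
  have hc3 : ((univ : Finset (F2 × F2)).filter (fun x => x ≠ (0, 0))).card = 3 := by decide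
  have hsub : (Pi.filter fun T => ¬ Nice (dg P0) mv r (FxR r ξ T) (owR r ξ T) (acR a b T) (ccR a b T)) ⊆
      (A ξ ∪ A ξ⁻¹) ∪ ((univ : Finset (F2 × F2)).filter (fun x => x ≠ (0, 0))).biUnion G := by
    intro T hT
    obtain ⟨hT1, hT2⟩ := mem_filter.1 hT
    obtain ⟨hfam, hdeg, hfix⟩ := p6 m P0 mv hce T hT1
    have hinv : ∀ i j, i ≠ j → r ∣ dg P0 i → r ∣ dg P0 j → hv r ξ (T j) (T i) = hv r ξ⁻¹ (T i) (T j) := by
      intro i j hij hi hj
      exact (h3 k hk hm (T i) (T j) r (hfam.mon i) (hfam.irr i) (hfam.mon j) (hfam.irr j)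
        hr0 (by rw [hdeg]; exact hi) (by rw [hdeg]; exact hj)).2.2.2.2.2
        (fun h => hij (hfam.inj h)) F ξ hξr
    by_contra hcon
    rw [mem_union, mem_union, not_or, not_or] at hcon
    obtain ⟨⟨c1, c2⟩, c3⟩ := hcon
    apply hT2
    refine ⟨fun v hvs hvj => ?_, fun v hvs hvj => ?_, fun p q hpq => ?_⟩
    · by_contra hv0
      apply c2
      refine mem_filter.2 ⟨hT1, v, hv0, hvs, fun j hj => ?_⟩
      obtain ⟨hj1, hj2⟩ := mem_filter.1 hj
      rw [← hvj j hj1 hj2]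
      refine sum_congr rfl fun i _ => ?_
      by_cases hi : i ∉ mv ∧ r ∣ dg P0 i
      · have hij : i ≠ j := fun h => hi.1 (h ▸ hj1)
        rw [FxR, if_neg hij, hinv i j hij hi.2 hj2, hfix i hi.1]
      · rw [hvs i hi, zero_mul, zero_mul]
    · by_contra hv0
      apply c1
      refine mem_filter.2 ⟨hT1, v, hv0, hvs, fun j hj => ?_⟩
      obtain ⟨hj1, hj2⟩ := mem_filter.1 hj
      rw [← hvj j hj1 hj2]
      refine sum_congr rfl fun i _ => ?_
      by_cases hi : i ∉ mv ∧ r ∣ dg P0 i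
      · have hij : j ≠ i := fun h => hi.1 (h ▸ hj1)
        rw [FxR, if_neg hij, hfix i hi.1]
      · rw [hvs i hi, zero_mul, zero_mul]
    · by_contra hlt
      push Not at hlt
      apply c3
      rw [mem_biUnion]
      exact ⟨(p, q), mem_filter.2 ⟨mem_univ _, hpq⟩, mem_filter.2 ⟨hT1, hlt⟩⟩
  have hle := (card_le_card hsub).trans ((card_union_le _ _).trans (Nat.add_le_add (card_union_le _ _)
    card_biUnion_le))
  have hle2 : (((Pi.filter fun T => ¬ Nice (dg P0) mv r (FxR r ξ T) (owR r ξ T) (acR a b T)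
      (ccR a b T)).card : ℕ) : ℝ) ≤ ((A ξ).card + (A ξ⁻¹).card : ℝ) +
      ∑ pq ∈ (univ : Finset (F2 × F2)).filter (fun x => x ≠ (0, 0)), ((G pq).card : ℝ) := by
    exact_mod_cast hle
  have hsum := sum_le_sum hG1
  rw [sum_const, hc3, nsmul_eq_mul] at hsum
  push_cast at hsum
  have hfin : (((Pi.filter fun T => ¬ Nice (dg P0) mv r (FxR r ξ T) (owR r ξ T) (acR a b T)
      (ccR a b T)).card : ℕ) : ℝ) ≤ 5 * X := by linarith
  refine hfin.trans (le_of_eq ?_)
  rw [hX]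
  ring

end Pool.Agent.Q210.GR
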